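import Pool.Agent.H895Z.ADTree

set_option autoImplicit false

/-! An almost disjoint family of `2 ^ ℵ₁` regular open subsets of `ℕ*`, in ZFC. -/

namespace Pool.Agent.Results.MP_bcfe2b_lc.Aleph1Family

open Cardinal Pool.Agent.H895Z.AD

theorem result : ∃ 𝒜 : Set (Set NStar), IsAD 𝒜 ∧ #𝒜 = 2 ^ ℵ₁ :=
  main_Q1

end Pool.Agent.Results.MP_bcfe2b_lc.Aleph1Family
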