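import Pool.Agent.H895Z.ADChain

set_option autoImplicit false

/-! In the Cohen extension every almost disjoint family on `ℕ*` has size at most `𝔠`. -/

namespace Pool.Agent.Results.MP_bcfe2b_lc.ConsistentlySmall

open Cardinal Pool.Agent.H895Z.AD

/-- (1) Some forcing notion forces the principle `CohenPr W X` for a well order `W`. (2) In ZFC the
principle implies that every almost disjoint family on `ℕ*` has size at most `𝔠`, so less than
`2 ^ 𝔠`. -/
theorem result :
    (∃ (P : Type) (_ : Preorder P) (W : Type) (_ : LinearOrder W) (_ : WellFoundedLT W) (X : Type),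
      Nonempty P ∧ ∀ p : P, p ∈ FCohenPr P W X) ∧
    (∀ (W X : Type) [LinearOrder W] [WellFoundedLT W], CohenPr W X →
      ∀ 𝒜 : Set (Set NStar), IsAD 𝒜 → #𝒜 ≤ 𝔠 ∧ #𝒜 < 2 ^ 𝔠) :=
  ⟨forcing_part, fun _ _ _ _ h 𝒜 hA =>
    ⟨zfc_part h 𝒜 hA, lt_of_le_of_lt (zfc_part h 𝒜 hA) (cantor _)⟩⟩

end Pool.Agent.Results.MP_bcfe2b_lc.ConsistentlySmall
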